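import Pool.Agent.T2H28.FS.Defs
import Pool.Agent.T2H28.FS.Asm2
import Pool.Agent.T2H28.FS.T_SGN
import Pool.Agent.T2H28.FS.T_MPW
import Pool.Agent.T2H28.FS.T_PRM
import Pool.Agent.T2H28.FS.T_COLX
import Pool.Agent.T2H28.FS.T_ASS
import Pool.Agent.T2H28.FS.T_POLY
import Pool.Agent.T2H28.FS.T_STEP
import Pool.Agent.T2H28.FS.T_VAN
import Pool.Agent.T2H28.FS.T_NV
import Pool.Agent.T2H28.FS.T_KOS
import Pool.Agent.T2H28.FS.T_HTP
import Pool.Agent.T2H28.FS.T_DU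
import Pool.Agent.T2H28.FS.T_DL
import Pool.Agent.T2H28.FS.T_DEP
import Pool.Agent.T2H28.FS.T_PPQP
import Pool.Agent.T2H28.FS.T_PRC
import Pool.Agent.T2H28.FS.T_RIX
import Pool.Agent.T2H28.FS.T_PW2
import Pool.Agent.T2H28.FS.T_PPQ2
import Pool.Agent.T2H28.FS.T_COL2
import Pool.Agent.T2H28.FS.T_NUMV
import Pool.Agent.T2H28.FS.T_NUMR
import Pool.Agent.T2H28.FS.T_PWD
import Pool.Agent.T2H28.FS.T_PPQD
import Pool.Agent.T2H28.FS.T_COLD
import Pool.Agent.T2H28.FS.T_DBL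
import Pool.Agent.T2H28.FS.T_EK2
import Pool.Agent.T2H28.FS.T_SSP
import Pool.Agent.T2H28.FS.T_JA1
import Pool.Agent.T2H28.FS.T_JA2
import Pool.Agent.T2H28.FS.T_COLA

/-!
All quadruples of positive integers are the four stability indices astab, dstab, rstab, vstab of
the powers of a graded ideal (a product of four monomial ideals in disjoint variables).
-/

namespace Pool.Agent.Results.MP_0db35b_al.AllFourIndices

open Pool.Agent.T2H28.FS

universe u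

/-- For every field `K` and all `a, d, r, v ≥ 1` there is a graded ideal `I`, neither zero nor the
unit ideal, in a polynomial ring over `K` with `astab(I) = a`, `dstab(I) = d`, `rstab(I) = r` and
`vstab(I) = v`. -/
theorem result (K : Type u) [Field K] (a d r v : ℕ) (ha : 1 ≤ a) (hd : 1 ≤ d) (hr : 1 ≤ r)
    (hv : 1 ≤ v) :
    ∃ (n : ℕ) (I : Ideal (MvPolynomial (Fin n) K)), I ≠ ⊥ ∧ I ≠ ⊤ ∧ IsGraded I ∧
      IsAstab I a ∧ IsDstab I d ∧ IsRstab I r ∧ IsVstab I v := by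
  have hJA2 : P_JA2 := T_JA2 T_JA1
  have hCOLA : P_COLA := T_COLA hJA2
  have hBV : P_BV := bv T_PW2 T_PPQ2 T_COL2 T_NUMV
  have hBR : P_BR := br T_PW2 T_PPQ2 T_COL2 T_NUMR
  have hBD : P_BD := bd T_PWD T_PPQD T_COLD
  have hBA : P_BA := ba @T_DBL T_EK2 T_SSP T_JA1 hJA2 hCOLA (fun U h k => pw_upper h k)
  obtain ⟨n, U, α, c, e, P₀, A, hB, hA, hAl⟩ :=
    finc @T_PPQP @T_PRC @T_RIX hBV hBR hBD hBA a d r v ha hd hr hv
  have hSGN : P_SGN.{u} := T_SGN.{u}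
  have hSTEP : P_STEP.{u} := T_STEP hSGN
  have hVAN : P_VAN.{u} := T_VAN hSGN @hSTEP
  have hNV : P_NV.{u} := T_NV hSGN @hSTEP @hVAN
  have hKOS : P_KOS.{u} := T_KOS @hVAN @hNV
  have hHTP : P_HTP.{u} := T_HTP hSGN
  have hDU : P_DU.{u} := T_DU hSGN @hHTP
  have hDL : P_DL.{u} := T_DL hSGN
  have hDEP : P_DEP.{u} := T_DEP @hDU @hDL
  have hMPW : P_MPW.{u} := @T_MPW
  have hPRM : P_PRM.{u} := @T_PRM
  have hCOLX : P_COLX.{u} := @T_COLX
  have hASS : P_ASS.{u} := T_ASS @hMPW @hPRM @hCOLX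
  have hPOLY : P_POLY.{u} := @T_POLY
  obtain ⟨I, hI⟩ := fina @hMPW @hCOLX @hASS @hPOLY @hKOS @hDEP K hd hr hv hB hA hAl
  exact ⟨n, I, hI⟩

end Pool.Agent.Results.MP_0db35b_al.AllFourIndices
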